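import Mathlib

set_option autoImplicit false
set_option linter.unusedSectionVars false

/-! Bond overlap of the ground states under the Ornstein-Uhlenbeck perturbation: deterministic part
and the Gaussian estimate. -/

open MeasureTheory ProbabilityTheory Finset
open scoped ENNReal

namespace Pool.Agent.X59.CH

/-- spin configurations -/
def IsConf {V : Type} (σ : V → ℝ) : Prop := ∀ x, σ x = 1 ∨ σ x = -1

section Det

variable {V E : Type} [Fintype V] [DecidableEq V] [Fintype E] [DecidableEq E] (src tgt : E → V)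

def energy (J : E → ℝ) (σ : V → ℝ) : ℝ := -∑ f, J f * (σ (src f) * σ (tgt f))

def IsGS (J : E → ℝ) (σ : V → ℝ) : Prop :=
  IsConf σ ∧ ∀ τ, IsConf τ → energy src tgt J σ ≤ energy src tgt J τ

/-- energy of the rest -/
def rest (e : E) (J : E → ℝ) (σ : V → ℝ) : ℝ :=
  -∑ f ∈ univ.erase e, J f * (σ (src f) * σ (tgt f))

theorem energy_update (e : E) (J : E → ℝ) (z : ℝ) (σ : V → ℝ) :
    energy src tgt (Function.update J e z) σ =
      -(z * (σ (src e) * σ (tgt e))) + rest src tgt e J σ := by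
  unfold energy rest
  rw [← add_sum_erase univ _ (mem_univ e), Function.update_self, neg_add]
  congr 2
  refine sum_congr rfl fun f hf => ?_
  rw [Function.update_of_ne (ne_of_mem_erase hf)]

/-- the other edges at `src e` -/
def nb (e : E) : Finset E := (univ.erase e).filter fun f => src f = src e ∨ tgt f = src e

theorem conf_mul {σ : V → ℝ} (h : IsConf σ) (x y : V) : σ x * σ y = 1 ∨ σ x * σ y = -1 := by
  rcases h x with h1 | h1 <;> rcases h y with h2 | h2 <;> rw [h1, h2] <;> norm_num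

theorem rest_flip (e : E) (J : E → ℝ) {σ τ : V → ℝ} (hσ : IsConf σ) (hτ : IsConf τ)
    (h2 : ∀ x, x ≠ src e → τ x = σ x) :
    rest src tgt e J τ ≤ rest src tgt e J σ + 2 * ∑ f ∈ nb src tgt e, |J f| := by
  have h3 : rest src tgt e J τ - rest src tgt e J σ =
      ∑ f ∈ univ.erase e, J f * (σ (src f) * σ (tgt f) - τ (src f) * τ (tgt f)) := by
    unfold rest
    rw [neg_sub_neg, ← sum_sub_distrib]
    refine sum_congr rfl fun f _ => ?_
    ring
  have h4 : ∑ f ∈ univ.erase e, J f * (σ (src f) * σ (tgt f) - τ (src f) * τ (tgt f)) ≤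
      ∑ f ∈ nb src tgt e, 2 * |J f| := by
    unfold nb
    rw [sum_filter]
    refine sum_le_sum fun f _ => ?_
    split_ifs with hf
    · have h5 : |σ (src f) * σ (tgt f) - τ (src f) * τ (tgt f)| ≤ 2 := by
        rcases conf_mul hσ (src f) (tgt f) with h6 | h6 <;>
          rcases conf_mul hτ (src f) (tgt f) with h7 | h7 <;> rw [h6, h7] <;> norm_num
      calc J f * (σ (src f) * σ (tgt f) - τ (src f) * τ (tgt f))
          ≤ |J f * (σ (src f) * σ (tgt f) - τ (src f) * τ (tgt f))| := le_abs_self _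
        _ = |J f| * |σ (src f) * σ (tgt f) - τ (src f) * τ (tgt f)| := abs_mul _ _
        _ ≤ |J f| * 2 := mul_le_mul_of_nonneg_left h5 (abs_nonneg _)
        _ = 2 * |J f| := mul_comm _ _
    · push Not at hf
      rw [h2 _ hf.1, h2 _ hf.2, sub_self, mul_zero]
  rw [← mul_sum] at h4
  linarith

theorem finite_conf : {σ : V → ℝ | IsConf σ}.Finite := by
  have : {σ : V → ℝ | IsConf σ} ⊆ Set.univ.pi fun _ : V => ({1, -1} : Set ℝ) := by
    intro σ h x _
    exact h x
  exact (Set.Finite.pi' fun _ : V => (Set.toFinite ({1, -1} : Set ℝ))).subset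
    (fun σ h x => h x)

theorem exists_K (e : E) (hne : src e ≠ tgt e) (J : E → ℝ) :
    ∃ K : ℝ, |K| ≤ ∑ f ∈ nb src tgt e, |J f| ∧ ∀ (z : ℝ) (σ : V → ℝ),
      IsGS src tgt (Function.update J e z) σ →
      (K < z → σ (src e) * σ (tgt e) = 1) ∧ (z < K → σ (src e) * σ (tgt e) = -1) := by
  have hex : ∀ s : ℝ, (s = 1 ∨ s = -1) → ∃ σ : V → ℝ, (IsConf σ ∧ σ (src e) * σ (tgt e) = s) ∧
      ∀ τ : V → ℝ, (IsConf τ ∧ τ (src e) * τ (tgt e) = s) →
        rest src tgt e J σ ≤ rest src tgt e J τ := by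
    intro s hs
    have hfin : {σ : V → ℝ | IsConf σ ∧ σ (src e) * σ (tgt e) = s}.Finite :=
      finite_conf.subset fun σ h => h.1
    have hne' : {σ : V → ℝ | IsConf σ ∧ σ (src e) * σ (tgt e) = s}.Nonempty := by
      refine ⟨Function.update (fun _ => 1) (src e) s, fun x => ?_, ?_⟩
      · by_cases hx : x = src e
        · subst hx
          rw [Function.update_self]
          exact hs
        · rw [Function.update_of_ne hx]
          exact Or.inl rfl
      · rw [Function.update_self, Function.update_of_ne hne.symm, mul_one]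
    obtain ⟨σ, h1, h2⟩ := Set.exists_min_image _ (rest src tgt e J) hfin hne'
    exact ⟨σ, h1, fun τ hτ => h2 τ hτ⟩
  obtain ⟨σp, ⟨hp1, hp2⟩, hp3⟩ := hex 1 (Or.inl rfl)
  obtain ⟨σm, ⟨hm1, hm2⟩, hm3⟩ := hex (-1) (Or.inr rfl)
  have hflip : ∀ σ : V → ℝ, IsConf σ → IsConf (Function.update σ (src e) (-σ (src e))) := by
    intro σ h x
    by_cases hx : x = src e
    · subst hx
      rw [Function.update_self]
      rcases h (src e) with h1 | h1 <;> rw [h1] <;> norm_num
    · rw [Function.update_of_ne hx]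
      exact h x
  have hprod : ∀ σ : V → ℝ, Function.update σ (src e) (-σ (src e)) (src e) *
      Function.update σ (src e) (-σ (src e)) (tgt e) = -(σ (src e) * σ (tgt e)) := by
    intro σ
    rw [Function.update_self, Function.update_of_ne hne.symm, neg_mul]
  have hr : ∀ σ : V → ℝ, IsConf σ → rest src tgt e J (Function.update σ (src e) (-σ (src e))) ≤
      rest src tgt e J σ + 2 * ∑ f ∈ nb src tgt e, |J f| := fun σ h =>
    rest_flip src tgt e J h (hflip σ h) fun x hx => Function.update_of_ne hx _ _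
  have a1 := hm3 _ ⟨hflip σp hp1, by rw [hprod, hp2]⟩
  have a2 := hp3 _ ⟨hflip σm hm1, by rw [hprod, hm2, neg_neg]⟩
  have a3 := hr σp hp1
  have a4 := hr σm hm1
  refine ⟨(rest src tgt e J σp - rest src tgt e J σm) / 2, ?_, fun z σ hσ => ?_⟩
  · rw [abs_le]
    constructor <;> linarith
  · have b1 := hσ.2 σp hp1
    have b2 := hσ.2 σm hm1
    rw [energy_update, energy_update] at b1 b2
    rw [hp2] at b1
    rw [hm2] at b2
    constructor
    · intro hz
      rcases conf_mul hσ.1 (src e) (tgt e) with h | h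
      · exact h
      · have b3 := hm3 σ ⟨hσ.1, h⟩
        rw [h] at b1
        linarith
    · intro hz
      rcases conf_mul hσ.1 (src e) (tgt e) with h | h
      · have b3 := hp3 σ ⟨hσ.1, h⟩
        rw [h] at b2
        linarith
      · exact h

end Det

/-- the standard Gaussian density -/
noncomputable def ph (x : ℝ) : ℝ := gaussianPDFReal 0 1 x

theorem ph_pos (x : ℝ) : 0 < ph x := gaussianPDFReal_pos 0 1 x one_ne_zero

theorem ph_mono {x M : ℝ} (h : |x| ≤ M) : ph M ≤ ph x := by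
  unfold ph
  rw [gaussianPDFReal, gaussianPDFReal]
  have h1 : x ^ 2 ≤ M ^ 2 := by
    rw [← sq_abs x]
    exact pow_le_pow_left₀ (abs_nonneg x) h 2
  have h2 : -(M - 0) ^ 2 / (2 * ((1 : NNReal) : ℝ)) ≤ -(x - 0) ^ 2 / (2 * ((1 : NNReal) : ℝ)) := by
    simp only [NNReal.coe_one, sub_zero]
    linarith
  exact mul_le_mul_of_nonneg_left (Real.exp_le_exp.2 h2) (by positivity)

theorem gauss_lower {M K r : ℝ} (hr : 0 ≤ r) (h : ∀ x ∈ Set.Ioo K (K + r), |x| ≤ M) :
    ENNReal.ofReal (r * ph M) ≤ gaussianReal 0 1 (Set.Ioo K (K + r)) := by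
  rw [gaussianReal_apply 0 one_ne_zero]
  calc ENNReal.ofReal (r * ph M) = ∫⁻ _ in Set.Ioo K (K + r), ENNReal.ofReal (ph M) := by
        rw [setLIntegral_const, Real.volume_Ioo, add_sub_cancel_left, mul_comm r,
          ENNReal.ofReal_mul (ph_pos M).le]
    _ ≤ ∫⁻ x in Set.Ioo K (K + r), gaussianPDF 0 1 x :=
        setLIntegral_mono' measurableSet_Ioo fun x hx => ENNReal.ofReal_le_ofReal (ph_mono (h x hx))

theorem arith {M K p b z w : ℝ} (hp0 : 0 < p) (hp1 : p < 1) (hb : Real.sqrt p ≤ b)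
    (hK : |K| ≤ M) (hz1 : K < z) (hz2 : z < K + Real.sqrt p) (hw : w < -(M + 2)) :
    (1 - p) * z + b * w < K := by
  set r := Real.sqrt p with hr
  have hrr : r * r = p := Real.mul_self_sqrt hp0.le
  have hr0 : 0 < r := Real.sqrt_pos.2 hp0
  have hr1 : r < 1 := by nlinarith
  have hM : 0 ≤ M := (abs_nonneg K).trans hK
  obtain ⟨hK1, hK2⟩ := abs_le.1 hK
  have h1 : b * w ≤ r * w := by nlinarith
  have h2 : r * w < -(r * (M + 2)) := by nlinarith
  have h3 : -(r * z) ≤ M := by nlinarith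
  have h4 : -(p * z) ≤ r * M := by
    rw [← hrr]
    nlinarith
  nlinarith

/-- the flip probability, one edge -/
theorem box {M K K' p b : ℝ} (hp0 : 0 < p) (hp1 : p < 1) (hb : Real.sqrt p ≤ b) (hK : |K| ≤ M) :
    ENNReal.ofReal (Real.sqrt p * ph (M + 3) ^ 2) ≤ ((gaussianReal 0 1).prod (gaussianReal 0 1))
      {y : ℝ × ℝ | (K < y.1 ∧ (1 - p) * y.1 + b * y.2 < K') ∨
        (y.1 < K ∧ K' < (1 - p) * y.1 + b * y.2)} := by
  have hr0 : 0 < Real.sqrt p := Real.sqrt_pos.2 hp0
  have hr1 : Real.sqrt p < 1 := by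
    have := Real.mul_self_sqrt hp0.le
    nlinarith
  have hM : 0 ≤ M := (abs_nonneg K).trans hK
  obtain ⟨hK1, hK2⟩ := abs_le.1 hK
  have key : ∀ a c : ℝ, (∀ x ∈ Set.Ioo a (a + Real.sqrt p), |x| ≤ M + 3) →
      (∀ x ∈ Set.Ioo c (c + 1), |x| ≤ M + 3) →
      ENNReal.ofReal (Real.sqrt p * ph (M + 3) ^ 2) ≤
        ((gaussianReal 0 1).prod (gaussianReal 0 1))
          (Set.Ioo a (a + Real.sqrt p) ×ˢ Set.Ioo c (c + 1)) := by
    intro a c h1 h2
    rw [Measure.prod_prod]
    have e : Real.sqrt p * ph (M + 3) ^ 2 = (Real.sqrt p * ph (M + 3)) * (1 * ph (M + 3)) := by ring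
    rw [e, ENNReal.ofReal_mul (by have := ph_pos (M + 3); positivity)]
    exact mul_le_mul' (gauss_lower hr0.le h1) (gauss_lower zero_le_one h2)
  rcases le_or_gt K K' with h | h
  · refine (key K (-(M + 3)) (fun x hx => ?_) (fun x hx => ?_)).trans (measure_mono ?_)
    · rw [abs_le]
      constructor <;> linarith [hx.1, hx.2]
    · rw [abs_le]
      constructor <;> linarith [hx.1, hx.2]
    · rintro ⟨z, w⟩ ⟨⟨h1, h2⟩, h3, h4⟩
      exact Or.inl ⟨h1, (arith hp0 hp1 hb hK h1 h2 (by linarith)).trans_le h⟩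
  · refine (key (K - Real.sqrt p) (M + 2) (fun x hx => ?_) (fun x hx => ?_)).trans (measure_mono ?_)
    · rw [abs_le]
      constructor <;> linarith [hx.1, hx.2]
    · rw [abs_le]
      constructor <;> linarith [hx.1, hx.2]
    · rintro ⟨z, w⟩ ⟨⟨h1, h2⟩, h3, h4⟩
      simp only at h1 h2 h3 h4
      have := arith (K := -K) (z := -z) (w := -w) (M := M) hp0 hp1 hb (by rwa [abs_neg])
        (by linarith) (by linarith) (by linarith)
      refine Or.inr ⟨by simp only; linarith, ?_⟩
      simp only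
      linarith

end Pool.Agent.X59.CH
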