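import Pool.Agent.X59.CH.A

set_option autoImplicit false
set_option linter.unusedSectionVars false

/-! Bond overlap of the ground states under the Ornstein-Uhlenbeck perturbation: the expectation. -/

open MeasureTheory ProbabilityTheory Finset
open scoped ENNReal

namespace Pool.Agent.X59.CH

variable {V E : Type} [Fintype V] [DecidableEq V] [Fintype E] [DecidableEq E] (src tgt : E → V)

/-- the law of the pairs `(J_e, J'_e)` -/
noncomputable def Q (E : Type) [Fintype E] : Measure (E → ℝ × ℝ) :=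
  Measure.pi fun _ => (gaussianReal 0 1).prod (gaussianReal 0 1)

instance : IsProbabilityMeasure (Q E) := by unfold Q; infer_instance

noncomputable def Jp (p : ℝ) (x : E → ℝ × ℝ) : E → ℝ :=
  fun f => (1 - p) * (x f).1 + Real.sqrt (2 * p - p ^ 2) * (x f).2

def J0 (x : E → ℝ × ℝ) : E → ℝ := fun f => (x f).1

/-- the bond overlap -/
noncomputable def ov (g : (E → ℝ) → V → ℝ) (p : ℝ) (u v : V) (x : E → ℝ × ℝ) : ℝ :=
  (g (J0 x) u * g (J0 x) v) * (g (Jp p x) u * g (Jp p x) v)

theorem meas_J0 : Measurable (J0 : (E → ℝ × ℝ) → E → ℝ) := by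
  unfold J0
  fun_prop

theorem meas_Jp (p : ℝ) : Measurable (Jp p : (E → ℝ × ℝ) → E → ℝ) := by
  unfold Jp
  fun_prop

theorem meas_ov {g : (E → ℝ) → V → ℝ} (hg : Measurable g) (p : ℝ) (u v : V) :
    Measurable (ov g p u v) := by
  have h1 : ∀ u : V, Measurable fun J => g J u := fun u => (measurable_pi_apply u).comp hg
  exact (((h1 u).comp meas_J0).mul ((h1 v).comp meas_J0)).mul
    (((h1 u).comp (meas_Jp p)).mul ((h1 v).comp (meas_Jp p)))

theorem J0_update (x : E → ℝ × ℝ) (e : E) (y : ℝ × ℝ) :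
    J0 (Function.update x e y) = Function.update (J0 x) e y.1 := by
  funext f
  by_cases h : f = e
  · subst h
    simp [J0]
  · simp [J0, Function.update_of_ne h]

theorem Jp_update (p : ℝ) (x : E → ℝ × ℝ) (e : E) (y : ℝ × ℝ) :
    Jp p (Function.update x e y) =
      Function.update (Jp p x) e ((1 - p) * y.1 + Real.sqrt (2 * p - p ^ 2) * y.2) := by
  funext f
  by_cases h : f = e
  · subst h
    simp [Jp]
  · simp [Jp, Function.update_of_ne h]

theorem marg {e : E} (hne : src e ≠ tgt e) {p : ℝ} (hp0 : 0 < p) (hp1 : p < 1)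
    {g : (E → ℝ) → V → ℝ} (hgs : ∀ J, IsGS src tgt J (g J)) {x : E → ℝ × ℝ} {Δ : ℕ}
    (hΔ : (nb src tgt e).card ≤ Δ) (hx : ∀ f ∈ nb src tgt e, |(x f).1| ≤ 1) :
    ENNReal.ofReal (Real.sqrt p * ph (Δ + 3) ^ 2) ≤ ((gaussianReal 0 1).prod (gaussianReal 0 1))
      {y : ℝ × ℝ | ov g p (src e) (tgt e) (Function.update x e y) = -1} := by
  obtain ⟨K, hK, h1⟩ := exists_K src tgt e hne (J0 x)
  obtain ⟨K', -, h2⟩ := exists_K src tgt e hne (Jp p x)
  have hK' : |K| ≤ (Δ : ℝ) := by
    refine hK.trans ?_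
    calc ∑ f ∈ nb src tgt e, |J0 x f| ≤ ∑ f ∈ nb src tgt e, (1 : ℝ) := sum_le_sum fun f hf => hx f hf
      _ = ((nb src tgt e).card : ℝ) := by simp
      _ ≤ Δ := by exact_mod_cast hΔ
  have hb : Real.sqrt p ≤ Real.sqrt (2 * p - p ^ 2) := Real.sqrt_le_sqrt (by nlinarith)
  refine (box (K' := K') hp0 hp1 hb hK').trans (measure_mono ?_)
  intro y hy
  show ov g p (src e) (tgt e) (Function.update x e y) = -1
  unfold ov
  rw [J0_update, Jp_update]
  have g1 := h1 y.1 _ (hgs _)
  have g2 := h2 ((1 - p) * y.1 + Real.sqrt (2 * p - p ^ 2) * y.2) _ (hgs _)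
  rcases hy with ⟨ha, hb⟩ | ⟨ha, hb⟩
  · rw [g1.1 ha, g2.2 hb]
    norm_num
  · rw [g1.2 ha, g2.1 hb]
    norm_num

theorem e_notMem (e : E) : e ∉ nb src tgt e := by
  unfold nb
  simp

theorem prob_lower {e : E} (hne : src e ≠ tgt e) {p : ℝ} (hp0 : 0 < p) (hp1 : p < 1)
    {g : (E → ℝ) → V → ℝ} (hg : Measurable g) (hgs : ∀ J, IsGS src tgt J (g J)) {Δ : ℕ}
    (hΔ : (nb src tgt e).card ≤ Δ) :
    ENNReal.ofReal (Real.sqrt p * ph (Δ + 3) ^ 2) * ENNReal.ofReal (2 * ph 1) ^ Δ ≤
      Q E {x | ov g p (src e) (tgt e) x = -1} := by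
  classical
  set c : ℝ≥0∞ := ENNReal.ofReal (Real.sqrt p * ph (Δ + 3) ^ 2) with hc
  set S : Set (E → ℝ × ℝ) := {x | ov g p (src e) (tgt e) x = -1} with hS
  have hSm : MeasurableSet S := meas_ov hg p _ _ (measurableSet_singleton _)
  set b : E → Set (ℝ × ℝ) := fun f =>
    if f ∈ nb src tgt e then Set.Ioo (-1 : ℝ) (-1 + 2) ×ˢ Set.univ else Set.univ with hb
  have hbm : ∀ f, MeasurableSet (b f) := by
    intro f
    simp only [hb]
    split_ifs
    · exact measurableSet_Ioo.prod MeasurableSet.univ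
    · exact MeasurableSet.univ
  set B : Set (E → ℝ × ℝ) := Set.pi Set.univ b with hB
  have hBm : MeasurableSet B := MeasurableSet.univ_pi hbm
  have hBx : ∀ x ∈ B, ∀ f ∈ nb src tgt e, |(x f).1| ≤ 1 := by
    intro x hx f hf
    have h1 := hx f (Set.mem_univ f)
    simp only [hb] at h1
    rw [if_pos hf] at h1
    have h2 := h1.1
    rw [abs_le]
    constructor <;> linarith [h2.1, h2.2]
  have hBu : ∀ (x : E → ℝ × ℝ) (y : ℝ × ℝ), Function.update x e y ∈ B ↔ x ∈ B := by
    intro x y
    simp only [hB, Set.mem_univ_pi]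
    refine forall_congr' fun f => ?_
    by_cases h : f = e
    · subst h
      simp only [hb]
      rw [if_neg (e_notMem src tgt f)]
      simp
    · rw [Function.update_of_ne h]
  have hmain : ∫⁻ x, B.indicator (fun _ => c) x ∂(Q E) ≤ ∫⁻ x, S.indicator 1 x ∂(Q E) := by
    unfold Q
    refine lintegral_le_of_lmarginal_le {e} (measurable_const.indicator hBm)
      (measurable_one.indicator hSm) ?_
    rw [lmarginal_singleton, lmarginal_singleton]
    intro x
    show ∫⁻ y, B.indicator (fun _ => c) (Function.update x e y)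
        ∂((gaussianReal 0 1).prod (gaussianReal 0 1)) ≤
      ∫⁻ y, S.indicator 1 (Function.update x e y) ∂((gaussianReal 0 1).prod (gaussianReal 0 1))
    by_cases hx : x ∈ B
    · have h1 : ∫⁻ y, B.indicator (fun _ => c) (Function.update x e y)
          ∂((gaussianReal 0 1).prod (gaussianReal 0 1)) = c := by
        have : (fun y => B.indicator (fun _ => c) (Function.update x e y)) = fun _ => c := by
          funext y
          rw [Set.indicator_of_mem ((hBu x y).2 hx)]
        rw [this, lintegral_const, measure_univ, mul_one]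
      have h2 : ∫⁻ y, S.indicator 1 (Function.update x e y)
          ∂((gaussianReal 0 1).prod (gaussianReal 0 1)) =
          ((gaussianReal 0 1).prod (gaussianReal 0 1))
            {y : ℝ × ℝ | ov g p (src e) (tgt e) (Function.update x e y) = -1} := by
        have hm : MeasurableSet
            {y : ℝ × ℝ | ov g p (src e) (tgt e) (Function.update x e y) = -1} :=
          (measurable_update x) hSm
        rw [← lintegral_indicator_one hm]
        rfl
      rw [h1, h2]
      exact marg src tgt hne hp0 hp1 hgs hΔ (hBx x hx)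
    · have : (fun y => B.indicator (fun _ => c) (Function.update x e y)) = fun _ => 0 := by
        funext y
        rw [Set.indicator_of_notMem fun h => hx ((hBu x y).1 h)]
      rw [this, lintegral_zero]
      exact zero_le
  rw [lintegral_indicator_const hBm, lintegral_indicator_one hSm] at hmain
  refine le_trans ?_ hmain
  refine mul_le_mul_right ?_ c
  have hle1 : ENNReal.ofReal (2 * ph 1) ≤ gaussianReal 0 1 (Set.Ioo (-1 : ℝ) (-1 + 2)) :=
    gauss_lower zero_le_two fun x hx => by
      rw [abs_le]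
      constructor <;> linarith [hx.1, hx.2]
  have hle2 : ENNReal.ofReal (2 * ph 1) ≤ 1 := hle1.trans prob_le_one
  calc ENNReal.ofReal (2 * ph 1) ^ Δ ≤ ENNReal.ofReal (2 * ph 1) ^ (nb src tgt e).card :=
        pow_le_pow_of_le_one zero_le hle2 hΔ
    _ = ∏ f : E, if f ∈ nb src tgt e then ENNReal.ofReal (2 * ph 1) else 1 := by
        rw [prod_ite_mem, univ_inter, prod_const]
    _ ≤ ∏ f : E, ((gaussianReal 0 1).prod (gaussianReal 0 1)) (b f) := by
        refine prod_le_prod' fun f _ => ?_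
        simp only [hb]
        split_ifs
        · rw [Measure.prod_prod, measure_univ, mul_one]
          exact hle1
        · rw [measure_univ]
    _ = Q E B := by
        unfold Q
        rw [hB, Measure.pi_pi]

/-- the constant -/
noncomputable def cst (Δ : ℕ) : ℝ := 2 * (ph (Δ + 3) ^ 2 * (2 * ph 1) ^ Δ)

theorem cst_pos (Δ : ℕ) : 0 < cst Δ := by
  have h1 := ph_pos ((Δ : ℝ) + 3)
  have h2 := ph_pos 1
  unfold cst
  positivity

theorem main {e : E} (hne : src e ≠ tgt e) {p : ℝ} (hp0 : 0 < p) (hp1 : p < 1)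
    {g : (E → ℝ) → V → ℝ} (hg : Measurable g) (hgs : ∀ J, IsGS src tgt J (g J)) {Δ : ℕ}
    (hΔ : (nb src tgt e).card ≤ Δ) :
    ∫ x, ov g p (src e) (tgt e) x ∂(Q E) ≤ 1 - cst Δ * Real.sqrt p := by
  set S : Set (E → ℝ × ℝ) := {x | ov g p (src e) (tgt e) x = -1} with hS
  have hSm : MeasurableSet S := meas_ov hg p _ _ (measurableSet_singleton _)
  have h1 : (fun x => ov g p (src e) (tgt e) x) = fun x => 1 - 2 * S.indicator 1 x := by
    funext x
    have h2 : ov g p (src e) (tgt e) x = 1 ∨ ov g p (src e) (tgt e) x = -1 := by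
      unfold ov
      rcases conf_mul (hgs (J0 x)).1 (src e) (tgt e) with h3 | h3 <;>
        rcases conf_mul (hgs (Jp p x)).1 (src e) (tgt e) with h4 | h4 <;> rw [h3, h4] <;> norm_num
    rcases h2 with h2 | h2
    · rw [Set.indicator_of_notMem (by show ¬ (_ = _); rw [h2]; norm_num), h2]
      ring
    · rw [Set.indicator_of_mem (by exact h2), h2]
      norm_num
  have h3 : Integrable (S.indicator (1 : (E → ℝ × ℝ) → ℝ)) (Q E) :=
    (integrable_const (1 : ℝ)).indicator hSm
  rw [h1, integral_sub (integrable_const _) (h3.const_mul 2), integral_const_mul,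
    integral_indicator_one hSm, integral_const]
  have h4 := prob_lower src tgt hne hp0 hp1 hg hgs hΔ
  have hph := ph_pos ((Δ : ℝ) + 3)
  have hph1 := ph_pos 1
  have hr0 : 0 ≤ Real.sqrt p := Real.sqrt_nonneg p
  have h5 : Real.sqrt p * ph (Δ + 3) ^ 2 * (2 * ph 1) ^ Δ ≤ (Q E).real S := by
    rw [← ENNReal.ofReal_pow (by positivity), ← ENNReal.ofReal_mul (by positivity)] at h4
    exact (ENNReal.ofReal_le_iff_le_toReal (measure_ne_top _ _)).1 h4
  have h6 : (Q E).real Set.univ • (1 : ℝ) = 1 := by simp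
  rw [h6]
  unfold cst
  nlinarith

end Pool.Agent.X59.CH
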