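import Pool.Agent.X59.CH.A

set_option autoImplicit false
set_option linter.unusedSectionVars false

/-! Bond overlap of the ground states under the Ornstein-Uhlenbeck perturbation: the expectation. -/

open MeasureTheory ProbabilityTheory Finset
open scoped ENNReal

namespace Pool.Agent.X59.CH2

open Pool.Agent.X59.CH (IsConf IsGS nb exists_K ph ph_pos ph_mono gauss_lower box conf_mul)

variable {V E : Type} [Fintype V] [DecidableEq V] [Fintype E] [DecidableEq E] (src tgt : E → V)

/-- the law of the pairs `(J_e, J'_e)` -/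
noncomputable def Q (E : Type) [Fintype E] : Measure (E → ℝ × ℝ) :=
  Measure.pi fun _ => (gaussianReal 0 1).prod (gaussianReal 0 1)

instance : IsProbabilityMeasure (Q E) := by unfold Q; infer_instance

noncomputable def Jp (p : ℝ) (x : E → ℝ × ℝ) : E → ℝ :=
  fun f => (1 - p) * (x f).1 + Real.sqrt (2 * p - p ^ 2) * (x f).2

def J0 (x : E → ℝ × ℝ) : E → ℝ := fun f => (x f).1

/-- the bond overlap -/
noncomputable def ov (g : (E → ℝ) → V → ℝ) (p : ℝ) (u v : V) (x : E → ℝ × ℝ) : ℝ :=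
  (g (J0 x) u * g (J0 x) v) * (g (Jp p x) u * g (Jp p x) v)

theorem meas_J0 : Measurable (J0 : (E → ℝ × ℝ) → E → ℝ) := by
  unfold J0
  fun_prop

theorem meas_Jp (p : ℝ) : Measurable (Jp p : (E → ℝ × ℝ) → E → ℝ) := by
  unfold Jp
  fun_prop

theorem meas_ov {g : (E → ℝ) → V → ℝ} (hg : Measurable g) (p : ℝ) (u v : V) :
    Measurable (ov g p u v) := by
  have h1 : ∀ u : V, Measurable fun J => g J u := fun u => (measurable_pi_apply u).comp hg
  exact (((h1 u).comp meas_J0).mul ((h1 v).comp meas_J0)).mul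
    (((h1 u).comp (meas_Jp p)).mul ((h1 v).comp (meas_Jp p)))

theorem J0_update (x : E → ℝ × ℝ) (e : E) (y : ℝ × ℝ) :
    J0 (Function.update x e y) = Function.update (J0 x) e y.1 := by
  funext f
  by_cases h : f = e
  · subst h
    simp [J0]
  · simp [J0, Function.update_of_ne h]

theorem Jp_update (p : ℝ) (x : E → ℝ × ℝ) (e : E) (y : ℝ × ℝ) :
    Jp p (Function.update x e y) =
      Function.update (Jp p x) e ((1 - p) * y.1 + Real.sqrt (2 * p - p ^ 2) * y.2) := by
  funext f
  by_cases h : f = e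
  · subst h
    simp [Jp]
  · simp [Jp, Function.update_of_ne h]

theorem box2 {A p b : ℝ} {K K' : ℝ} (hp0 : 0 < p) (hp1 : p < 1) (hb : Real.sqrt p ≤ b)
    (hA : 0 ≤ A) (hK : |K| ≤ A) (hK' : |K'| ≤ A) :
    ENNReal.ofReal (Real.sqrt p * ph (A + 3) ^ 2) ≤ ((gaussianReal 0 1).prod (gaussianReal 0 1))
      {y : ℝ × ℝ | K < y.1 ∧ K' < (1 - p) * y.1 + b * y.2} := by
  have hr0 : 0 < Real.sqrt p := Real.sqrt_pos.2 hp0
  have hr2 := Real.mul_self_sqrt hp0.le
  have hr1 : Real.sqrt p < 1 := by nlinarith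
  have hpb : p ≤ b := by nlinarith
  have hph := ph_pos (A + 3)
  have h1 : ENNReal.ofReal (1 * ph (A + 3)) ≤ gaussianReal 0 1 (Set.Ioo A (A + 1)) :=
    gauss_lower zero_le_one fun x hx => by
      rw [abs_le]
      constructor <;> linarith [hx.1, hx.2]
  have h2 : ENNReal.ofReal (Real.sqrt p * ph (A + 3) ^ 2) ≤
      ENNReal.ofReal (1 * ph (A + 3)) * ENNReal.ofReal (1 * ph (A + 3)) := by
    rw [← ENNReal.ofReal_mul (by positivity)]
    refine ENNReal.ofReal_le_ofReal ?_
    nlinarith [sq_nonneg (ph (A + 3))]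
  refine (h2.trans (mul_le_mul' h1 h1)).trans ?_
  rw [← Measure.prod_prod]
  refine measure_mono ?_
  rintro ⟨z, w⟩ ⟨⟨h3, h4⟩, h5, h6⟩
  simp only at h3 h4 h5 h6
  have h7 := (abs_le.1 hK).2
  have h8 := (abs_le.1 hK').2
  refine ⟨by simp only; linarith, ?_⟩
  simp only
  nlinarith

theorem marg {e : E} (hne : src e ≠ tgt e) {p : ℝ} (hp0 : 0 < p) (hp1 : p < 1)
    {g : (E → ℝ) → V → ℝ} (hgs : ∀ J, IsGS src tgt J (g J)) {x : E → ℝ × ℝ} {Δ : ℕ}
    (hΔ : (nb src tgt e).card ≤ Δ) (hx : ∀ f ∈ nb src tgt e, |(x f).1| ≤ 1 ∧ |(x f).2| ≤ 1)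
    {s : ℝ} (hs : s = 1 ∨ s = -1) :
    ENNReal.ofReal (Real.sqrt p * ph (2 * Δ + 3) ^ 2) ≤
      ((gaussianReal 0 1).prod (gaussianReal 0 1))
      {y : ℝ × ℝ | ov g p (src e) (tgt e) (Function.update x e y) = s} := by
  obtain ⟨K, hK, h1⟩ := exists_K src tgt e hne (J0 x)
  obtain ⟨K', hK', h2⟩ := exists_K src tgt e hne (Jp p x)
  have hΔ' : ((nb src tgt e).card : ℝ) ≤ Δ := by exact_mod_cast hΔ
  have hK1 : |K| ≤ 2 * (Δ : ℝ) := by
    refine hK.trans ?_
    calc ∑ f ∈ nb src tgt e, |J0 x f| ≤ ∑ f ∈ nb src tgt e, (1 : ℝ) :=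
          sum_le_sum fun f hf => (hx f hf).1
      _ = ((nb src tgt e).card : ℝ) := by simp
      _ ≤ 2 * (Δ : ℝ) := by linarith [(Nat.cast_nonneg Δ : (0 : ℝ) ≤ (Δ : ℝ))]
  have hb : Real.sqrt p ≤ Real.sqrt (2 * p - p ^ 2) := Real.sqrt_le_sqrt (by nlinarith)
  have hb1 : Real.sqrt (2 * p - p ^ 2) ≤ 1 := by
    rw [Real.sqrt_le_one]
    nlinarith [sq_nonneg (1 - p)]
  have hb0 := Real.sqrt_nonneg (2 * p - p ^ 2)
  have hK2 : |K'| ≤ 2 * (Δ : ℝ) := by
    refine hK'.trans ?_
    calc ∑ f ∈ nb src tgt e, |Jp p x f| ≤ ∑ f ∈ nb src tgt e, (2 : ℝ) :=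
          sum_le_sum fun f hf => by
            obtain ⟨h3, h4⟩ := hx f hf
            unfold Jp
            have h5 : |(1 - p) * (x f).1| ≤ 1 := by
              rw [abs_mul, abs_of_pos (by linarith : 0 < 1 - p)]
              nlinarith [abs_nonneg (x f).1]
            have h6 : |Real.sqrt (2 * p - p ^ 2) * (x f).2| ≤ 1 := by
              rw [abs_mul, abs_of_nonneg hb0]
              nlinarith [abs_nonneg (x f).2]
            linarith [abs_add_le ((1 - p) * (x f).1) (Real.sqrt (2 * p - p ^ 2) * (x f).2)]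
      _ = 2 * ((nb src tgt e).card : ℝ) := by
          rw [sum_const, nsmul_eq_mul, mul_comm]
      _ ≤ 2 * (Δ : ℝ) := by linarith
  rcases hs with rfl | rfl
  · refine (box2 hp0 hp1 hb (by positivity) hK1 hK2).trans (measure_mono ?_)
    intro y hy
    show ov g p (src e) (tgt e) (Function.update x e y) = 1
    unfold ov
    rw [J0_update, Jp_update]
    have g1 := h1 y.1 _ (hgs _)
    have g2 := h2 ((1 - p) * y.1 + Real.sqrt (2 * p - p ^ 2) * y.2) _ (hgs _)
    rw [g1.1 hy.1, g2.1 hy.2]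
    norm_num
  · refine (box (K' := K') hp0 hp1 hb hK1).trans (measure_mono ?_)
    intro y hy
    show ov g p (src e) (tgt e) (Function.update x e y) = -1
    unfold ov
    rw [J0_update, Jp_update]
    have g1 := h1 y.1 _ (hgs _)
    have g2 := h2 ((1 - p) * y.1 + Real.sqrt (2 * p - p ^ 2) * y.2) _ (hgs _)
    rcases hy with ⟨ha, hb⟩ | ⟨ha, hb⟩
    · rw [g1.1 ha, g2.2 hb]
      norm_num
    · rw [g1.2 ha, g2.1 hb]
      norm_num

theorem e_notMem (e : E) : e ∉ nb src tgt e := by
  unfold nb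
  simp

theorem prob_lower {e : E} (hne : src e ≠ tgt e) {p : ℝ} (hp0 : 0 < p) (hp1 : p < 1)
    {g : (E → ℝ) → V → ℝ} (hg : Measurable g) (hgs : ∀ J, IsGS src tgt J (g J)) {Δ : ℕ}
    (hΔ : (nb src tgt e).card ≤ Δ) {s : ℝ} (hs : s = 1 ∨ s = -1) :
    ENNReal.ofReal (Real.sqrt p * ph (2 * Δ + 3) ^ 2) *
        (ENNReal.ofReal (2 * ph 1) * ENNReal.ofReal (2 * ph 1)) ^ Δ ≤
      Q E {x | ov g p (src e) (tgt e) x = s} := by
  classical
  set c : ℝ≥0∞ := ENNReal.ofReal (Real.sqrt p * ph (2 * Δ + 3) ^ 2) with hc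
  set S : Set (E → ℝ × ℝ) := {x | ov g p (src e) (tgt e) x = s} with hS
  have hSm : MeasurableSet S := meas_ov hg p _ _ (measurableSet_singleton _)
  set b : E → Set (ℝ × ℝ) := fun f =>
    if f ∈ nb src tgt e then Set.Ioo (-1 : ℝ) (-1 + 2) ×ˢ Set.Ioo (-1 : ℝ) (-1 + 2) else Set.univ with hb
  have hbm : ∀ f, MeasurableSet (b f) := by
    intro f
    simp only [hb]
    split_ifs
    · exact measurableSet_Ioo.prod measurableSet_Ioo
    · exact MeasurableSet.univ
  set B : Set (E → ℝ × ℝ) := Set.pi Set.univ b with hB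
  have hBm : MeasurableSet B := MeasurableSet.univ_pi hbm
  have hBx : ∀ x ∈ B, ∀ f ∈ nb src tgt e, |(x f).1| ≤ 1 ∧ |(x f).2| ≤ 1 := by
    intro x hx f hf
    have h1 := hx f (Set.mem_univ f)
    simp only [hb] at h1
    rw [if_pos hf] at h1
    have h2 := h1.1
    have h3 := h1.2
    rw [abs_le, abs_le]
    refine ⟨⟨?_, ?_⟩, ?_, ?_⟩ <;> linarith [h2.1, h2.2, h3.1, h3.2]
  have hBu : ∀ (x : E → ℝ × ℝ) (y : ℝ × ℝ), Function.update x e y ∈ B ↔ x ∈ B := by
    intro x y
    simp only [hB, Set.mem_univ_pi]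
    refine forall_congr' fun f => ?_
    by_cases h : f = e
    · subst h
      simp only [hb]
      rw [if_neg (e_notMem src tgt f)]
      simp
    · rw [Function.update_of_ne h]
  have hmain : ∫⁻ x, B.indicator (fun _ => c) x ∂(Q E) ≤ ∫⁻ x, S.indicator 1 x ∂(Q E) := by
    unfold Q
    refine lintegral_le_of_lmarginal_le {e} (measurable_const.indicator hBm)
      (measurable_one.indicator hSm) ?_
    rw [lmarginal_singleton, lmarginal_singleton]
    intro x
    show ∫⁻ y, B.indicator (fun _ => c) (Function.update x e y)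
        ∂((gaussianReal 0 1).prod (gaussianReal 0 1)) ≤
      ∫⁻ y, S.indicator 1 (Function.update x e y) ∂((gaussianReal 0 1).prod (gaussianReal 0 1))
    by_cases hx : x ∈ B
    · have h1 : ∫⁻ y, B.indicator (fun _ => c) (Function.update x e y)
          ∂((gaussianReal 0 1).prod (gaussianReal 0 1)) = c := by
        have : (fun y => B.indicator (fun _ => c) (Function.update x e y)) = fun _ => c := by
          funext y
          rw [Set.indicator_of_mem ((hBu x y).2 hx)]
        rw [this, lintegral_const, measure_univ, mul_one]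
      have h2 : ∫⁻ y, S.indicator 1 (Function.update x e y)
          ∂((gaussianReal 0 1).prod (gaussianReal 0 1)) =
          ((gaussianReal 0 1).prod (gaussianReal 0 1))
            {y : ℝ × ℝ | ov g p (src e) (tgt e) (Function.update x e y) = s} := by
        have hm : MeasurableSet
            {y : ℝ × ℝ | ov g p (src e) (tgt e) (Function.update x e y) = s} :=
          (measurable_update x) hSm
        rw [← lintegral_indicator_one hm]
        rfl
      rw [h1, h2]
      exact marg src tgt hne hp0 hp1 hgs hΔ (hBx x hx) hs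
    · have : (fun y => B.indicator (fun _ => c) (Function.update x e y)) = fun _ => 0 := by
        funext y
        rw [Set.indicator_of_notMem fun h => hx ((hBu x y).1 h)]
      rw [this, lintegral_zero]
      exact zero_le
  rw [lintegral_indicator_const hBm, lintegral_indicator_one hSm] at hmain
  refine le_trans ?_ hmain
  refine mul_le_mul_right ?_ c
  have hle1 : ENNReal.ofReal (2 * ph 1) ≤ gaussianReal 0 1 (Set.Ioo (-1 : ℝ) (-1 + 2)) :=
    gauss_lower zero_le_two fun x hx => by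
      rw [abs_le]
      constructor <;> linarith [hx.1, hx.2]
  have hle2 : ENNReal.ofReal (2 * ph 1) * ENNReal.ofReal (2 * ph 1) ≤ 1 :=
    mul_le_one' (hle1.trans prob_le_one) (hle1.trans prob_le_one)
  calc (ENNReal.ofReal (2 * ph 1) * ENNReal.ofReal (2 * ph 1)) ^ Δ ≤
        (ENNReal.ofReal (2 * ph 1) * ENNReal.ofReal (2 * ph 1)) ^ (nb src tgt e).card :=
        pow_le_pow_of_le_one zero_le hle2 hΔ
    _ = ∏ f : E, if f ∈ nb src tgt e then
          ENNReal.ofReal (2 * ph 1) * ENNReal.ofReal (2 * ph 1) else 1 := by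
        rw [prod_ite_mem, univ_inter, prod_const]
    _ ≤ ∏ f : E, ((gaussianReal 0 1).prod (gaussianReal 0 1)) (b f) := by
        refine prod_le_prod' fun f _ => ?_
        simp only [hb]
        split_ifs
        · rw [Measure.prod_prod]
          exact mul_le_mul' hle1 hle1
        · rw [measure_univ]
    _ = Q E B := by
        unfold Q
        rw [hB, Measure.pi_pi]

/-- the constant -/
noncomputable def cst (Δ : ℕ) : ℝ := 2 * (ph (2 * Δ + 3) ^ 2 * (2 * ph 1 * (2 * ph 1)) ^ Δ)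

theorem cst_pos (Δ : ℕ) : 0 < cst Δ := by
  have h1 := ph_pos (2 * (Δ : ℝ) + 3)
  have h2 := ph_pos 1
  unfold cst
  positivity

theorem main {e : E} (hne : src e ≠ tgt e) {p : ℝ} (hp0 : 0 < p) (hp1 : p < 1)
    {g : (E → ℝ) → V → ℝ} (hg : Measurable g) (hgs : ∀ J, IsGS src tgt J (g J)) {Δ : ℕ}
    (hΔ : (nb src tgt e).card ≤ Δ) :
    |∫ x, ov g p (src e) (tgt e) x ∂(Q E)| ≤ 1 - cst Δ * Real.sqrt p := by
  have hval : ∀ x, ov g p (src e) (tgt e) x = 1 ∨ ov g p (src e) (tgt e) x = -1 := by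
    intro x
    unfold ov
    rcases conf_mul (hgs (J0 x)).1 (src e) (tgt e) with h3 | h3 <;>
      rcases conf_mul (hgs (Jp p x)).1 (src e) (tgt e) with h4 | h4 <;> rw [h3, h4] <;> norm_num
  have hph := ph_pos (2 * (Δ : ℝ) + 3)
  have hph1 := ph_pos 1
  have hr0 : 0 ≤ Real.sqrt p := Real.sqrt_nonneg p
  have hone : (Q E).real Set.univ • (1 : ℝ) = 1 := by simp
  have key : ∀ s : ℝ, (s = 1 ∨ s = -1) →
      Real.sqrt p * ph (2 * Δ + 3) ^ 2 * (2 * ph 1 * (2 * ph 1)) ^ Δ ≤
        (Q E).real {x | ov g p (src e) (tgt e) x = s} := by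
    intro s hs
    have h4 := prob_lower src tgt hne hp0 hp1 hg hgs hΔ hs
    rw [← ENNReal.ofReal_mul (by positivity), ← ENNReal.ofReal_pow (by positivity),
      ← ENNReal.ofReal_mul (by positivity)] at h4
    exact (ENNReal.ofReal_le_iff_le_toReal (measure_ne_top _ _)).1 h4
  have hint : ∀ s : ℝ, (s = 1 ∨ s = -1) → ∫ x, ov g p (src e) (tgt e) x ∂(Q E) =
      -s + 2 * s * (Q E).real {x | ov g p (src e) (tgt e) x = s} := by
    intro s hs
    have hSm : MeasurableSet {x | ov g p (src e) (tgt e) x = s} :=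
      meas_ov hg p _ _ (measurableSet_singleton _)
    have h1 : (fun x => ov g p (src e) (tgt e) x) = fun x =>
        -s + 2 * s * ({x | ov g p (src e) (tgt e) x = s}).indicator 1 x := by
      funext x
      by_cases hx : ov g p (src e) (tgt e) x = s
      · rw [Set.indicator_of_mem (by exact hx), hx]
        simp only [Pi.one_apply]
        ring
      · rw [Set.indicator_of_notMem (by exact hx)]
        rcases hs with rfl | rfl <;> rcases hval x with h | h
        · exact absurd h hx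
        · rw [h]; ring
        · rw [h]; ring
        · exact absurd h hx
    have h3 : Integrable (({x | ov g p (src e) (tgt e) x = s}).indicator
        (1 : (E → ℝ × ℝ) → ℝ)) (Q E) := (integrable_const (1 : ℝ)).indicator hSm
    rw [h1, integral_add (integrable_const _) (h3.const_mul (2 * s)), integral_const_mul,
      integral_indicator_one hSm, integral_const, smul_eq_mul]
    congr 1
    simp
  rw [abs_le]
  unfold cst
  constructor
  · rw [hint 1 (Or.inl rfl)]
    have := key 1 (Or.inl rfl)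
    linarith
  · rw [hint (-1) (Or.inr rfl)]
    have := key (-1) (Or.inr rfl)
    linarith

end Pool.Agent.X59.CH2
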